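import Pool.Agent.helper54.UG.Spec

/-! Row ug:CRA (Cramer's rule). -/

set_option autoImplicit false

namespace Pool.Agent.UG

open Matrix Pool.Agent.H48SL

/-- the linear form of the entry `k` of `X u` -/
noncomputable def CRA_L {n : ℕ} (X : MQ n) (k : Fin n) : MvPolynomial (Fin n) ℚ :=
  ∑ l, MvPolynomial.C (X k l) * MvPolynomial.X l

lemma CRA_L_eval {n : ℕ} (X : MQ n) (k : Fin n) (u : Fin n → ℚ) :
    MvPolynomial.eval u (CRA_L X k) = (X *ᵥ u) k := by
  unfold CRA_L
  rw [map_sum]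
  simp only [map_mul, MvPolynomial.eval_C, MvPolynomial.eval_X]
  rfl

/-- the Gram matrix -/
noncomputable def CRA_G {n r : ℕ} (X : Fin r → MQ n) :
    Matrix (Fin r) (Fin r) (MvPolynomial (Fin n) ℚ) :=
  Matrix.of fun i j => ∑ k, CRA_L (X i) k * CRA_L (X j) k

lemma CRA_G_eval {n r : ℕ} (X : Fin r → MQ n) (u : Fin n → ℚ) (i j : Fin r) :
    MvPolynomial.eval u (CRA_G X i j) = ∑ k, (X i *ᵥ u) k * (X j *ᵥ u) k := by
  unfold CRA_G
  rw [Matrix.of_apply, map_sum]
  simp only [map_mul, CRA_L_eval]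

lemma CRA_comb {n r : ℕ} (X : Fin r → MQ n) (u : Fin n → ℚ) (a : Fin r → ℚ) (k : Fin n) :
    ((∑ i, a i • X i) *ᵥ u) k = ∑ i, a i * (X i *ᵥ u) k := by
  rw [Matrix.sum_mulVec, Finset.sum_apply]
  refine Finset.sum_congr rfl fun i _ => ?_
  rw [Matrix.smul_mulVec, Pi.smul_apply, smul_eq_mul]

theorem CRA : CRA_stmt := by
  intro n r X h
  have hdet : (CRA_G X).det = 0 := by
    apply MvPolynomial.funext
    intro u
    rw [map_zero, RingHom.map_det]
    rw [← Matrix.exists_mulVec_eq_zero_iff]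
    obtain ⟨a, ha, hau⟩ := h u
    refine ⟨a, ha, ?_⟩
    funext i
    have h1 : (((MvPolynomial.eval u).mapMatrix (CRA_G X)) *ᵥ a) i =
        ∑ j, (∑ k, (X i *ᵥ u) k * (X j *ᵥ u) k) * a j := by
      change ∑ j, MvPolynomial.eval u (CRA_G X i j) * a j = _
      simp only [CRA_G_eval]
    rw [h1]
    calc ∑ j, (∑ k, (X i *ᵥ u) k * (X j *ᵥ u) k) * a j
        = ∑ k, (X i *ᵥ u) k * ∑ j, a j * (X j *ᵥ u) k := by
          simp only [Finset.sum_mul, Finset.mul_sum]
          rw [Finset.sum_comm]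
          refine Finset.sum_congr rfl fun k _ => Finset.sum_congr rfl fun j _ => ?_
          ring
      _ = 0 := by
          refine Finset.sum_eq_zero fun k _ => ?_
          rw [← CRA_comb X u a k, hau]
          simp
  obtain ⟨c, hc, hGc⟩ := Matrix.exists_mulVec_eq_zero_iff.mpr hdet
  refine ⟨c, hc, fun u => ?_⟩
  have h2 : ∀ i, ∑ j, (∑ k, (X i *ᵥ u) k * (X j *ᵥ u) k) * MvPolynomial.eval u (c j) = 0 := by
    intro i
    have h3 : MvPolynomial.eval u ((CRA_G X *ᵥ c) i) = 0 := by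
      rw [hGc]
      simp
    have h4 : (CRA_G X *ᵥ c) i = ∑ j, CRA_G X i j * c j := rfl
    rw [h4, map_sum] at h3
    simp only [map_mul, CRA_G_eval] at h3
    exact h3
  have h5 : ∑ k, (∑ i, MvPolynomial.eval u (c i) * (X i *ᵥ u) k) ^ 2 = 0 := by
    calc ∑ k, (∑ i, MvPolynomial.eval u (c i) * (X i *ᵥ u) k) ^ 2
        = ∑ i, MvPolynomial.eval u (c i) *
            ∑ j, (∑ k, (X i *ᵥ u) k * (X j *ᵥ u) k) * MvPolynomial.eval u (c j) := by
          simp only [pow_two, Finset.sum_mul, Finset.mul_sum]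
          rw [Finset.sum_comm]
          refine Finset.sum_congr rfl fun i _ => ?_
          rw [Finset.sum_comm]
          refine Finset.sum_congr rfl fun j _ => Finset.sum_congr rfl fun k _ => ?_
          ring
      _ = 0 := Finset.sum_eq_zero fun i _ => by rw [h2 i, mul_zero]
  funext k
  rw [CRA_comb X u (fun i => MvPolynomial.eval u (c i)) k]
  have h6 := (Finset.sum_eq_zero_iff_of_nonneg (fun k _ => sq_nonneg _)).mp h5 k (Finset.mem_univ k)
  exact pow_eq_zero_iff (two_ne_zero) |>.mp h6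

end Pool.Agent.UG
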