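import Pool.Agent.helper54.UG.Spec2

/-! Row ug:KB. -/

set_option autoImplicit false

namespace Pool.Agent.UG

open Matrix Pool.Agent.H48SL

theorem KB (hG0 : G0_stmt) (hZD : ZD_stmt) (hCLA : CLA_stmt) (hTRV : TRV_stmt)
    (hSTQ : STQ_stmt) : KB_stmt := by
  intro n hn H X 𝔟 hZ hF hG
  have hZb : ZDense (Hb H) := hZD n hn H X hZ hF
  obtain ⟨hA, hL⟩ := hSTQ n H 𝔟 hG.kill hG.anil hG.lat
  have hS : Star (𝔟.map (dnL n)) := by
    intro u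
    obtain ⟨Y, hY, hY0, hYu⟩ := hG.star (Fin.cons 0 u)
    refine ⟨dn Y, ⟨Y, hY, rfl⟩, hY0, ?_⟩
    funext i
    have h1 := hYu i
    have h2 : (Y *ᵥ (Fin.cons 0 u : Fin (n + 1) → ℚ)) i.succ = (dn Y *ᵥ u) i := by
      simp only [mulVec, dotProduct]
      rw [Fin.sum_univ_succ]
      simp [dn]
    rw [← h2, h1]
    rfl
  have hfi := hG0 n hn (Hb H) hZb _ hA hL hS
  obtain ⟨τ, h1, h2, h3⟩ := hCLA n hn H X hZ hF hfi
  exact hTRV n (by omega) H hZ hfi τ h1 h2 h3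

end Pool.Agent.UG
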