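import Pool.Agent.helper54.UG.Spec3

/-! Row ug:G0T. -/

set_option autoImplicit false

namespace Pool.Agent.UG

open Matrix Pool.Agent.H48SL

/-- transposition as a linear map -/
def G0T_T (n : ℕ) : MQ n →ₗ[ℚ] MQ n where
  toFun X := Xᵀ
  map_add' _ _ := rfl
  map_smul' _ _ := rfl

lemma G0T_exp {n : ℕ} {X : MQ n} (hX : IsNilpotent X) :
    IsNilpotent.exp Xᵀ = (IsNilpotent.exp X)ᵀ := by
  obtain ⟨k, hk⟩ := hX
  have hk' : Xᵀ ^ k = 0 := by rw [← Matrix.transpose_pow, hk, Matrix.transpose_zero]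
  rw [IsNilpotent.exp_eq_sum hk, IsNilpotent.exp_eq_sum hk', Matrix.transpose_sum]
  refine Finset.sum_congr rfl fun i _ => ?_
  rw [Matrix.transpose_smul, Matrix.transpose_pow]

lemma G0T_qg {n : ℕ} (h : SLZ n) : qg h.transpose = (qg h)ᵀ := by
  ext i j
  rw [Matrix.transpose_apply, qg_apply, qg_apply]
  rfl

theorem G0T (hTRP : TRP_stmt) (hG0 : G0_stmt) : G0T_stmt := by
  intro n hn H hZ 𝔞 hA hL hS
  obtain ⟨H', hZ', hmem, hfin⟩ := hTRP n H hZ
  apply hfin
  refine hG0 n hn H' hZ' (𝔞.map (G0T_T n)) ?_ ?_ ?_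
  · obtain ⟨N, hN⟩ := hA
    refine ⟨N, fun l hl hlen => ?_⟩
    have h1 : (l.prod)ᵀ = 0 := by
      rw [Matrix.transpose_list_prod]
      apply hN
      · intro X hX
        rw [List.mem_reverse, List.mem_map] at hX
        obtain ⟨Y, hY, rfl⟩ := hX
        obtain ⟨Z, hZ, hZY⟩ := hl Y hY
        have h2 : Y = Zᵀ := hZY.symm
        rw [h2, Matrix.transpose_transpose]
        exact hZ
      · rw [List.length_reverse, List.length_map]
        exact hlen
    have h3 := congrArg Matrix.transpose h1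
    rwa [Matrix.transpose_transpose, Matrix.transpose_zero] at h3
  · rintro Y ⟨X, hX, rfl⟩
    obtain ⟨k, hk, h, hh, hqg⟩ := hL X hX
    refine ⟨k, hk, h.transpose, ?_, ?_⟩
    · rw [hmem]
      have h1 : h.transpose.transpose = h := by
        apply qg_inj
        rw [G0T_qg, G0T_qg, Matrix.transpose_transpose]
      rw [h1]
      exact hh
    · rw [G0T_qg, hqg]
      have h2 : (k : ℚ) • G0T_T n X = ((k : ℚ) • X)ᵀ := rfl
      rw [h2, G0T_exp]
      exact hA.nil (𝔞.smul_mem _ hX)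
  · intro u
    obtain ⟨X, hX, hX0, hXu⟩ := hS u
    refine ⟨Xᵀ, ⟨X, hX, rfl⟩, ?_, ?_⟩
    · intro h
      apply hX0
      have h3 := congrArg Matrix.transpose h
      rwa [Matrix.transpose_transpose, Matrix.transpose_zero] at h3
    · rw [Matrix.mulVec_transpose]
      exact hXu

end Pool.Agent.UG
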